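import Pool.Agent.Helper51.UL.Fin

/-!
# Homothetic copies of arbitrary configurations in ARBITRARY sets of numbers whose iterates under `x ↦ 2 x - 1`
are prime or almost prime

For `L ≥ 0` we consider the integers `n` for which `n, 2 n - 1, 4 n - 3, ..., 2 ^ L (n - 1) + 1` are prime (`L = 1`: the
primes `p` for which `2 p - 1` is prime) or free of small prime factors.

(1) Let `A` be ANY set of integers `n` in an interval `(u, u + Y]`, `u ≤ Y ^ C`, such that all prime factors of the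
numbers `2 ^ i (n - 1) + 1`, `0 ≤ i ≤ L`, are larger than `Y ^ θ`. Let `H ≥ 1` and `D` be such that
`D ≥ (log Y) ^ B`, `D ≥ H ^ ε` and `D H ≤ Y ^ (1 - ε)`, and let `T` be ANY set of at most `k` integers in `[-H, H]`. All
but at most `δ Y / (log Y) ^ (L + 1)` of the elements `n` of `A` have this property: for at least `D ^ (1 - ε)` of the
dilations `1 ≤ d ≤ D` all the numbers `n + d t`, `t ∈ T`, belong to `A`. The exponent `B` depends only on
`L, C, k, ε, θ, δ`; there is no condition on `T`, which may depend on `Y` and have elements up to `Y ^ (1 - 2 ε)`.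

(2) For large `r` let `A` be the set of the primes `p` in `(X, 2 X]` for which each of the numbers
`2 ^ i (p - 1) + 1`, `1 ≤ i ≤ L`, has at most `r` prime factors, all larger than `p ^ (1 / r)`. At least
`c X / (log X) ^ (L + 1)` of the elements `p` of `A` have, for all these `D`, `H` and `T`, at least `D ^ (1 - ε)`
dilations `1 ≤ d ≤ D` for which all the `p + d t`, `t ∈ T`, belong to `A`.
-/

set_option autoImplicit false

open Finset

namespace Pool.Agent.Results.MP_0fefc4_nt.HomotheticCunningham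

/-- The `i`-th iterate `2 ^ i (n - 1) + 1` of `x ↦ 2 x - 1` at `n ≥ 1`. -/
def iter (i n : ℕ) : ℕ := 2 ^ i * (n - 1) + 1

/-- All prime factors of `n, 2 n - 1, ..., 2 ^ L (n - 1) + 1` are larger than `y`. -/
def RoughChain (L : ℕ) (y : ℝ) (n : ℕ) : Prop := ∀ i ≤ L, ∀ q : ℕ, q.Prime → q ∣ iter i n → y < q

/-- The number of the dilations `1 ≤ d ≤ D` for which all the numbers `n + d t`, `t ∈ T`, belong to `A`. -/
noncomputable def copies (A : Set ℕ) (T : Finset ℤ) (D n : ℕ) : ℕ :=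
  {d : ℕ | 1 ≤ d ∧ d ≤ D ∧ ∀ t ∈ T, ∃ m ∈ A, (m : ℤ) = n + d * t}.ncard

/-- The primes `p` in `(X, 2 X]` for which each of the numbers `2 ^ i (p - 1) + 1`, `1 ≤ i ≤ L`, has at most `r` prime
factors, all larger than `p ^ (1 / r)`. -/
def AlmostChains (L r X : ℕ) : Set ℕ :=
  {p | X < p ∧ p ≤ 2 * X ∧ p.Prime ∧ ∀ i, 1 ≤ i → i ≤ L → (iter i p).primeFactorsList.length ≤ r ∧
    ∀ q : ℕ, q.Prime → q ∣ iter i p → (p : ℝ) ^ (1 / (r : ℝ)) < q}

theorem iter_cast (i n : ℕ) (hn : 1 ≤ n) : ((iter i n : ℕ) : ℤ) = ((2 ^ i : ℕ) : ℤ) * n + (1 - 2 ^ i) := by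
  unfold iter
  push_cast [hn]
  ring

/-- **Homothetic copies of arbitrary configurations in arbitrary sets of chains.** -/
theorem result (L : ℕ) :
    (∀ (C k : ℕ) (ε θ δ : ℝ), 0 < ε → ε < 1 → 0 < θ → 0 < δ → ∃ B : ℕ, ∀ Y H D u : ℕ,
      B ≤ Y → u ≤ Y ^ C → 1 ≤ H → Real.log Y ^ B ≤ D → (H : ℝ) ^ ε ≤ D →
      (D : ℝ) * H ≤ (Y : ℝ) ^ (1 - ε) →
      ∀ A : Set ℕ, (∀ n ∈ A, u < n ∧ n ≤ u + Y ∧ RoughChain L ((Y : ℝ) ^ θ) n) →
      ∀ T : Finset ℤ, T.card ≤ k → (∀ t ∈ T, |t| ≤ H) →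
        ({n : ℕ | n ∈ A ∧ (copies A T D n : ℝ) < (D : ℝ) ^ (1 - ε)}.ncard : ℝ) ≤
          δ * (Y / Real.log Y ^ (L + 1))) ∧
    (∃ r₀ : ℕ, ∀ r : ℕ, r₀ ≤ r → ∃ c : ℝ, 0 < c ∧ ∀ (k : ℕ) (ε : ℝ), 0 < ε → ε < 1 →
      ∃ B : ℕ, ∀ X H D : ℕ, B ≤ X → 1 ≤ H → Real.log X ^ B ≤ D → (H : ℝ) ^ ε ≤ D →
      (D : ℝ) * H ≤ (X : ℝ) ^ (1 - ε) →
      ∀ T : Finset ℤ, T.card ≤ k → (∀ t ∈ T, |t| ≤ H) →
        c * (X / Real.log X ^ (L + 1)) ≤ ({p : ℕ | p ∈ AlmostChains L r X ∧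
          (D : ℝ) ^ (1 - ε) ≤ (copies (AlmostChains L r X) T D p : ℝ)}.ncard : ℝ)) := by
  have hc : ∀ A T D n, copies A T D n = Pool.Agent.Helper51.UL.cps A T D n := fun _ _ _ _ => rfl
  constructor
  · intro C k ε θ δ hε hε1 hθ hδ
    obtain ⟨B, hB⟩ := Pool.Agent.Helper51.UL.ptSet (fun i : Fin (L + 1) => 2 ^ (i : ℕ))
      (fun i : Fin (L + 1) => (1 : ℤ) - 2 ^ (i : ℕ)) (fun i => Nat.one_le_two_pow)
      (by
        intro i j hij h
        apply hij
        push_cast at h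
        have h1 : (2 : ℤ) ^ (j : ℕ) = 2 ^ (i : ℕ) := by linarith
        have h2 : 2 ^ (j : ℕ) = 2 ^ (i : ℕ) := by exact_mod_cast h1
        exact Fin.ext (Nat.pow_right_injective le_rfl h2).symm) C k ε θ δ hε hε1 hθ hδ
    refine ⟨B, fun Y H D u hY hu hH hBD hHD hDY A hA T hTk hT => ?_⟩
    have h1 := hB Y H D u hY hu hH hBD hHD hDY A (by
      intro n hn
      obtain ⟨e1, e2, e3⟩ := hA n hn
      refine ⟨e1, e2, fun i q hq hqd => e3 i (by have := i.2; omega) q hq ?_⟩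
      rw [← iter_cast i n (by omega)] at hqd
      exact Int.natCast_dvd_natCast.1 hqd) T hTk hT
    simp only [hc]
    exact h1
  · obtain ⟨r₀, h⟩ := Pool.Agent.Helper51.UL.genPs (fun i : Fin L => 2 ^ ((i : ℕ) + 1))
      (fun i : Fin L => (1 : ℤ) - 2 ^ ((i : ℕ) + 1)) (fun i => by positivity)
      (fun i => ⟨1, 1, by push_cast; ring⟩)
      (fun i => by
        have h1 : (2 : ℤ) ^ 1 ≤ 2 ^ ((i : ℕ) + 1) :=
          pow_le_pow_right₀ (by norm_num) (by omega)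
        have h2 : (1 : ℤ) - 2 ^ ((i : ℕ) + 1) < 0 := by linarith
        exact h2.ne)
      (fun i j hij h => by
        apply hij
        push_cast at h
        have h1 : (2 : ℤ) ^ ((j : ℕ) + 1) = 2 ^ ((i : ℕ) + 1) := by linarith
        have h2 : 2 ^ ((j : ℕ) + 1) = 2 ^ ((i : ℕ) + 1) := by exact_mod_cast h1
        have h3 := Nat.pow_right_injective le_rfl h2
        exact Fin.ext (by omega))
      (fun p hp => ⟨1, fun hd => hp.one_lt.ne' (Nat.dvd_one.1 hd), fun i hd => by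
        have e : (((2 ^ ((i : ℕ) + 1) : ℕ) : ℤ) * ((1 : ℕ) : ℤ) + (1 - 2 ^ ((i : ℕ) + 1))) =
            ((1 : ℕ) : ℤ) := by
          push_cast
          ring
        rw [e] at hd
        exact hp.one_lt.ne' (Nat.dvd_one.1 (Int.natCast_dvd_natCast.1 hd))⟩)
    refine ⟨r₀, fun r hr => ?_⟩
    obtain ⟨c, hc0, h⟩ := h r hr
    refine ⟨c, hc0, fun k ε hε hε1 => ?_⟩
    obtain ⟨B, hB⟩ := h k ε hε hε1
    refine ⟨B, fun X H D hX hH hBD hHD hDX T hTk hT => ?_⟩
    have h1 := hB X H D hX hH hBD hHD hDX T hTk hT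
    have e : Pool.Agent.Helper51.UL.AlmP (fun i : Fin L => 2 ^ ((i : ℕ) + 1))
        (fun i : Fin L => (1 : ℤ) - 2 ^ ((i : ℕ) + 1)) r X = AlmostChains L r X := by
      ext p
      unfold Pool.Agent.Helper51.UL.AlmP AlmostChains
      simp only [Set.mem_ofPred_eq]
      constructor
      · rintro ⟨f1, f2, f3, f4⟩
        refine ⟨f1, f2, f3, fun i hi1 hiL => ?_⟩
        have f5 := f4 ⟨i - 1, by omega⟩
        have e1 : i - 1 + 1 = i := by omega
        simp only [e1] at f5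
        rw [← iter_cast i p (by omega), Int.natAbs_natCast] at f5
        refine ⟨f5.1, fun q hq hqd => f5.2 q hq (Int.natCast_dvd_natCast.2 hqd)⟩
      · rintro ⟨f1, f2, f3, f4⟩
        refine ⟨f1, f2, f3, fun i => ?_⟩
        have f5 := f4 ((i : ℕ) + 1) (by omega) (by have := i.2; omega)
        rw [← iter_cast ((i : ℕ) + 1) p (by omega), Int.natAbs_natCast]
        exact ⟨f5.1, fun q hq hqd => f5.2 q hq (Int.natCast_dvd_natCast.1 hqd)⟩
    rw [e] at h1
    simp only [hc]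
    exact h1

end Pool.Agent.Results.MP_0fefc4_nt.HomotheticCunningham
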