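import Mathlib
import Pool.Agent.Helper54.SM.Inf

set_option autoImplicit false

/-!
# Infinite sets of times which are exactly the prime times of orbits of `x ↦ 2 x - 1`

Let `S x = 2 x - 1`; the question is whether `p` and `S p` are both prime infinitely often. Call a set `B` of times
an exact pattern if for every `R` there are infinitely many starting points `u` (`≡ a + 1 (mod q)`) such that for
all `v ≤ R` the iterate `S^v u` is prime if and only if `v ∈ B`.

How fast can an infinite exact pattern of times grow, and where can it be found? All methods give only `c log N`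
primes among `N` given iterates, so a pattern with more than `C log X` elements below `X` is out of reach. The
theorem: EVERY infinite set `V` of times (such that the `S^v (a + 1)`, `v ∈ V`, are prime to `q`; no condition for `a = 0`
or `q = 1`) contains an infinite exact pattern `B` with at least `log |V ∩ [0, X)| / ψ(X)` elements below `X` for
infinitely many `X`, which can moreover be taken from any given infinite set `𝒳` of scales; `ψ` is any
function tending to infinity, however slowly. (With `q = 2`, `a = 1` and `0 ∉ V` the number `u` is even, so it is not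
an iterate, and the pattern is exact in both directions of time.)

The same holds for the maps `S_d : x ↦ d (x - 1) + 1` (`S = S_2`, `S_d (t + 1) = d t + 1`) and every infinite set `D` of
multipliers `d`: it contains an infinite set `B`, of the growth above, such that for every `R` there are
infinitely many `t ≡ a (mod q)` for which the primes `p ≡ 1 (mod t)`, `p ≤ R t + 1`, are exactly the numbers `b t + 1`,
`b ∈ B`, `b ≤ R`. The question is whether such a pattern can contain `b` and `2 b`.

Earlier for this problem: exact patterns with finitely many primes (`SystemsOfIterates`, `ExactPositions`); in the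
starting library also an infinite exact pattern of linear forms without a bound for its growth
(`Pool.Agent.H361R2.Inf`).

Proof. The block sieve of `H361R2` with arbitrary summable budgets, for sequences of linear forms
(`Pool.Agent.Helper85.IG.seq_growth`, helper85, for this team: groups of blocks of forms, the `t`-th group uses
nearly all forms below the `t`-th scale, and a finitely additive intersectivity lemma), applied to the forms
`d (q n + a) + 1`; here there is no local obstruction, and the selection inside `D` is not needed.
-/

open Filter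

namespace Pool.Agent.Results.MP_0fefc4_nt.InfiniteOrbitPatterns

/-- the map `x ↦ 2 x - 1` -/
def S (x : ℕ) : ℕ := 2 * x - 1

/-- For every `R` there are infinitely many `u ≡ a + 1 (mod q)` such that for all times `v ≤ R` the iterate `S^v u` is
prime if and only if `v ∈ B`. -/
def ExactTimes (q a : ℕ) (B : Set ℕ) : Prop :=
  ∀ R : ℕ, {u : ℕ | u ≡ a + 1 [MOD q] ∧ ∀ v : ℕ, v ≤ R → ((S^[v] u).Prime ↔ v ∈ B)}.Infinite

/-- For every `R` there are infinitely many `t ≡ a (mod q)` such that for all `1 ≤ d ≤ R` the number `d t + 1` is
prime if and only if `d ∈ B`. -/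
def ExactMultipliers (q a : ℕ) (B : Set ℕ) : Prop :=
  ∀ R : ℕ, {t : ℕ | t ≡ a [MOD q] ∧ ∀ d : ℕ, 1 ≤ d → d ≤ R → ((d * t + 1).Prime ↔ d ∈ B)}.Infinite

/-- **Infinite exact patterns of maximal growth inside every infinite set of times or of multipliers.** -/
theorem result (q a : ℕ) (hq : 1 ≤ q) (ψ : ℕ → ℝ) (hψ : Tendsto ψ atTop atTop)
    (𝒳 : Set ℕ) (h𝒳 : 𝒳.Infinite) :
    (∀ V : Set ℕ, V.Infinite → (∀ v ∈ V, (2 ^ v * a + 1).Coprime q) →
      ∃ B ⊆ V, B.Infinite ∧ ExactTimes q a B ∧ ∃ᶠ X : ℕ in atTop, X ∈ 𝒳 ∧
        Real.log (V ∩ Set.Iio X).ncard ≤ ψ X * ((B ∩ Set.Iio X).ncard : ℝ)) ∧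
    ∀ D : Set ℕ, D.Infinite → (∀ d ∈ D, 1 ≤ d) → (∀ d ∈ D, (d * a + 1).Coprime q) →
      ∃ B ⊆ D, B.Infinite ∧ ExactMultipliers q a B ∧ ∃ᶠ X : ℕ in atTop, X ∈ 𝒳 ∧
        Real.log (D ∩ Set.Iio X).ncard ≤ ψ X * ((B ∩ Set.Iio X).ncard : ℝ) :=
  ⟨fun V hV hcop => Pool.Agent.Helper54.SM.infinite_times q a hq V hV hcop ψ hψ 𝒳 h𝒳,
    fun D hD hD1 hcop => Pool.Agent.Helper54.SM.infinite_patterns q a hq D hD hD1 hcop ψ hψ 𝒳 h𝒳⟩

end Pool.Agent.Results.MP_0fefc4_nt.InfiniteOrbitPatterns
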