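import Mathlib
import Pool.Agent.Helper54.SM.Main

set_option autoImplicit false

/-!
# Spread distributions on the exact patterns of primes in the orbits of `x ↦ 2 x - 1` and `x ↦ d (x - 1) + 1`

The question is whether `p` and `S p = 2 p - 1` are both prime infinitely often. With `p = t + 1` one has
`S p = 2 t + 1`, and the `v`-th iterate of `t + 1` is `2 ^ v t + 1`. Let `D` be ANY finite set of positive integers:
for the iterates of `S` at a set `V` of times take `D = {2 ^ v : v ∈ V}`; the general `D` belongs to the images of
`t + 1` under the maps `S_d : x ↦ d (x - 1) + 1`, `d ∈ D` (so `S = S_2`). There is no local condition for `D`.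

Let `ε > 0` and `m ≤ (1 / 4 - ε) log |D|`: this is the whole range in which the theorem of Maynard and Tao gives
`m` primes among the `d t + 1`, `d ∈ D`. There is a probability distribution on the subsets `P` of `D` with at
least `m` elements which are, at least `x / (log x) ^ B` times up to `x`, EXACT patterns: the `d t + 1`, `d ∈ P`, are
prime and there is no other prime `p` for which `(p - 1) / t` is a fraction of height at most `R` (so all other
iterates and preimages up to the `R`-th one are composite, `R` being arbitrary), and for EVERY `U ⊆ D`, `|U| ≤ m`,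

  `Prob (U ⊆ P) ≤ (C m |U| / |D|) ^ |U|`,   `C = C(ε)`.

Some consequences. (1) `D` contains at least `(|D| / (C m²)) ^ m` exact patterns with at least `m` elements,
uniformly in `m ≤ (1 / 4 - ε) log |D|`. So at least `exp ((1 / 4 - ε) (log T)²)` words of length `T` occur infinitely
often as the exact prime patterns of the first `T` iterates in the orbits of `S`. (2) As soon as
`log |D| ≥ (4 + ε) m + C`, at least the proportion `(C m) ^ (-m)` of the `m`-element sets of times (or of
multipliers) in `D` consists of the first `m` elements of an exact pattern. (3) For every weight `w ≥ 0` on the sets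
`U` there is an exact pattern with `∑_{U ⊆ P} w U ≤ ∑ w U (C m |U| / |D|) ^ |U|`: there are patterns which avoid any
given sufficiently sparse system of configurations of iterates.

Known for this problem: exact patterns of `k + 1` primes when the number of times is sufficiently large in terms of
`k` (`SystemsOfIterates`, a proportion obtained by a box theorem), and results on two primes of an orbit.

Proof: the distribution theorem for linear forms `Pool.Agent.Helper50.SP.dist` (helper50, for this team), congruences
which exclude all other fractions of bounded height and a class in which all small primes are excluded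
(`Pool.Agent.Helper54.SM.for_set`), averaging over the subsets of `D` with `exp (4 m + O(1))` elements, and
the choice of one distribution for all `R`.
-/

open Finset Filter

namespace Pool.Agent.Results.MP_0fefc4_nt.SpreadIteratePatterns

/-- `t ≡ a (mod q)`, all `d t + 1`, `d ∈ P`, are prime, and there is no other prime `p` for which `(p - 1) / t` is a
fraction `j / i` with `i, j ≤ R`. -/
def Exactly (q a R : ℕ) (P : Finset ℕ) (t : ℕ) : Prop :=
  t ≡ a [MOD q] ∧ (∀ d ∈ P, (d * t + 1).Prime) ∧
    ∀ p i j : ℕ, p.Prime → 1 ≤ i → i ≤ R → 1 ≤ j → j ≤ R → i * (p - 1) = j * t → ∃ d ∈ P, p = d * t + 1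

/-- the number of the `t ≤ x` with this property -/
noncomputable def count (q a R : ℕ) (P : Finset ℕ) (x : ℝ) : ℕ :=
  Set.ncard {t : ℕ | (t : ℝ) ≤ x ∧ Exactly q a R P t}

/-- `μ` is a probability distribution on the subsets of `D` with at least `m` elements such that a random set
contains a given set `U` of at most `m` elements with probability at most `(C m |U| / |D|) ^ |U|`. -/
def Spread (C : ℝ) (m : ℕ) (D : Finset ℕ) (μ : Finset ℕ → ℝ) : Prop :=
  (∀ P, 0 ≤ μ P) ∧ (∀ P, μ P ≠ 0 → P ⊆ D ∧ m ≤ P.card) ∧ ∑ P ∈ D.powerset, μ P = 1 ∧
    ∀ U ⊆ D, U.card ≤ m →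
      ∑ P ∈ D.powerset with U ⊆ P, μ P ≤ (C * m * U.card / D.card) ^ U.card

/-- For every `ε > 0` there is `C` such that for every `m ≥ 1` there is `B` with the following property. Let `D`
be a set of positive integers with `log |D| ≥ (4 + ε) m + C`, let `q ≥ 1` and let all `d a + 1`, `d ∈ D`, be prime to
`q` (no condition for `q = 1` or `a = 0`). For every `R` and all large `x` there is a distribution as in `Spread`
all of whose values `P` are exact patterns, up to the height `R`, for at least `x / (log x) ^ B` integers `t ≤ x`
congruent to `a` modulo `q`. Moreover there is one such distribution `μ` which has this property for every `R`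
and arbitrarily large `x`. -/
theorem result (ε : ℝ) (hε : 0 < ε) : ∃ C : ℝ, 0 < C ∧ ∀ m : ℕ, 1 ≤ m → ∃ B : ℕ, ∀ D : Finset ℕ,
    (4 + ε) * m + C ≤ Real.log D.card → (∀ d ∈ D, 1 ≤ d) →
    ∀ q a : ℕ, 1 ≤ q → (∀ d ∈ D, Nat.Coprime (d * a + 1) q) →
    (∀ R : ℕ, ∀ᶠ x : ℝ in atTop, ∃ μ : Finset ℕ → ℝ, Spread C m D μ ∧
      ∀ P, μ P ≠ 0 → x / Real.log x ^ B ≤ count q a R P x) ∧
    ∃ μ : Finset ℕ → ℝ, Spread C m D μ ∧ ∀ R : ℕ, ∃ᶠ x : ℝ in atTop,
      ∀ P, μ P ≠ 0 → x / Real.log x ^ B ≤ count q a R P x :=
  Pool.Agent.Helper54.SM.main ε hε

end Pool.Agent.Results.MP_0fefc4_nt.SpreadIteratePatterns
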