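import Mathlib
import Pool.Agent.Helper54.SM.Typ

set_option autoImplicit false

/-!
# Random sets of about `m²` times contain `m` times at which an orbit of `x ↦ 2 x - 1` is at consecutive primes

The question is whether `p` and `S p = 2 p - 1` are both prime infinitely often. With `p = t + 1` the `v`-th iterate
is `S^v p = 2 ^ v t + 1`, and more generally `S_d p = d t + 1` for the map `S_d : x ↦ d (x - 1) + 1`.

How many times (or multipliers `d`) are necessary in order to find `m` among them at which an orbit is at primes? By
the theorem of Maynard and Tao `exp ((4 + ε) m + C)` times suffice. We show that for almost all sets of times a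
number which is QUADRATIC in `m` suffices: let `D` be any set of positive integers with at least
`exp ((4 + ε) m + C)` elements, for example `D = {2 ^ v : v < N}` for the times `v < N`. Then for every `T` all but the
proportion `2 ^ (1 - T / (C m²))` of the `T`-element subsets `W` of `D` contain an `m`-element subset `H` such that
infinitely often (at least `x / (log x) ^ B` times up to `x`, for arbitrarily large `x`, in a given residue class)
all `h t + 1`, `h ∈ H`, are prime, and up to `max H t + 1` there is no other prime `p` for which `(p - 1) / t` is a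
fraction of height at most `R`; in particular these `m` primes are the consecutive primes of the orbit. For
`2 m ≤ T ≤ m²` the proportion of the `T`-element subsets with this property is at least `(T / (C m²)) ^ m`.

Proof. The distribution on the exact patterns with `Prob (U ⊆ P) ≤ (C m |U| / |D|) ^ |U|` of
`SpreadIteratePatterns`, and the combinatorial argument of helper50 (`Pool.Agent.Helper50.TS.typical'`: the second
moment, over the random set `W`, of the probability that the first `m` elements of `P` are in `W`, and a successive
exposure of blocks of `8 C m²` elements).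
-/

open Finset Filter

namespace Pool.Agent.Results.MP_0fefc4_nt.TypicalMultipliers

/-- `t ≡ a (mod q)`, the numbers `h t + 1`, `h ∈ H`, are prime, and they are the only primes
`p ≤ max H t + 1` for which `(p - 1) / t` is a fraction `j / i` with `i, j ≤ R`. -/
def Consecutive (q a R : ℕ) (H : Finset ℕ) (t : ℕ) : Prop :=
  t ≡ a [MOD q] ∧ (∀ h ∈ H, (h * t + 1).Prime) ∧
    ∀ p i j : ℕ, p.Prime → 1 ≤ i → i ≤ R → 1 ≤ j → j ≤ R → i * (p - 1) = j * t →
      (∃ h ∈ H, p ≤ h * t + 1) → ∃ h ∈ H, p = h * t + 1

/-- the number of the `t ≤ x` with this property -/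
noncomputable def number (q a R : ℕ) (H : Finset ℕ) (x : ℝ) : ℕ :=
  Set.ncard {t : ℕ | (t : ℝ) ≤ x ∧ Consecutive q a R H t}

/-- For every `T` at most the proportion `2 ^ (1 - T / (C m²))` of the `T`-element subsets of `D` contains no
good set with `m` elements, and if `2 m ≤ T ≤ m²`, then the proportion of the `T`-element subsets of `D` which
contain a good set with `m` elements is at least `(T / (C m²)) ^ m`. -/
def Typical (C : ℝ) (m : ℕ) (D : Finset ℕ) (good : Finset ℕ → Prop) : Prop := ∀ T : ℕ,
  (Set.ncard {W : Finset ℕ | W ⊆ D ∧ W.card = T ∧ ¬ ∃ H ⊆ W, H.card = m ∧ good H} : ℝ) ≤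
      2 ^ (1 - T / (C * m ^ 2) : ℝ) * (D.card.choose T : ℕ) ∧
    (2 * m ≤ T → T ≤ m ^ 2 → (T / (C * m ^ 2) : ℝ) ^ m * (D.card.choose T : ℕ) ≤
      Set.ncard {W : Finset ℕ | W ⊆ D ∧ W.card = T ∧ ∃ H ⊆ W, H.card = m ∧ good H})

/-- For every `ε > 0` there is `C` such that for every `m ≥ 1` there is `B` with the following property. Let `D`
be a set of positive integers with `log |D| ≥ (4 + ε) m + C`, let `q ≥ 1` and let all `d a + 1`, `d ∈ D`, be
prime to `q` (no condition for `q = 1` or `a = 0`). Then `Typical C m D` holds for the sets `H` for which, for every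
`R` and arbitrarily large `x`, at least `x / (log x) ^ B` integers `t ≤ x` have the property `Consecutive`. It also
holds, for every `R` and every sufficiently large `x`, for the sets `H` with at least `x / (log x) ^ B` such `t ≤ x`
for this `x`. -/
theorem result (ε : ℝ) (hε : 0 < ε) : ∃ C : ℝ, 0 < C ∧ ∀ m : ℕ, 1 ≤ m → ∃ B : ℕ, ∀ D : Finset ℕ,
    (4 + ε) * m + C ≤ Real.log D.card → (∀ d ∈ D, 1 ≤ d) →
    ∀ q a : ℕ, 1 ≤ q → (∀ d ∈ D, Nat.Coprime (d * a + 1) q) →
    (∀ R : ℕ, ∀ᶠ x : ℝ in atTop, Typical C m D (fun H => x / Real.log x ^ B ≤ number q a R H x)) ∧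
    Typical C m D (fun H => ∀ R : ℕ, ∃ᶠ x : ℝ in atTop, x / Real.log x ^ B ≤ number q a R H x) :=
  Pool.Agent.Helper54.SM.final ε hε

end Pool.Agent.Results.MP_0fefc4_nt.TypicalMultipliers
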